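import Mathlib

/-!
Sparse signed expansions: a real number is approximated by `s(1/b)` for an integer polynomial `s`
of small `l¹` norm.
-/

set_option autoImplicit false

open Polynomial Finset

namespace Pool.Agent.P.MP_c8ecb2_nt.H11

/-- The sum of the absolute values of the coefficients. -/
noncomputable def l1 (s : ℤ[X]) : ℝ := ∑ n ∈ s.support, |(s.coeff n : ℝ)|

theorem l1_eq {s : ℤ[X]} {T : Finset ℕ} (h : s.support ⊆ T) :
    l1 s = ∑ n ∈ T, |(s.coeff n : ℝ)| :=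
  sum_subset h fun n _ hn => by rw [notMem_support_iff.1 hn, Int.cast_zero, abs_zero]

theorem l1_nonneg (s : ℤ[X]) : 0 ≤ l1 s := sum_nonneg fun _ _ => abs_nonneg _

theorem l1_add (s t : ℤ[X]) : l1 (s + t) ≤ l1 s + l1 t := by
  rw [l1_eq (T := s.support ∪ t.support) support_add, l1_eq (s := s) subset_union_left,
    l1_eq (s := t) subset_union_right, ← sum_add_distrib]
  refine sum_le_sum fun n _ => ?_
  rw [coeff_add, Int.cast_add]
  exact abs_add_le _ _

theorem l1_neg (s : ℤ[X]) : l1 (-s) = l1 s := by simp [l1]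

theorem l1_zero : l1 0 = 0 := by simp [l1]

theorem l1_sum {ι : Type} (T : Finset ι) (f : ι → ℤ[X]) :
    l1 (∑ i ∈ T, f i) ≤ ∑ i ∈ T, l1 (f i) := by
  classical
  induction T using Finset.induction_on with
  | empty => simp [l1_zero]
  | insert a T ha ih =>
    rw [sum_insert ha, sum_insert ha]
    exact (l1_add _ _).trans (by linarith)

theorem l1_monomial (n : ℕ) (c : ℤ) : l1 (monomial n c) = |(c : ℝ)| := by
  rw [l1_eq (T := {n}) (support_monomial_subset n c), sum_singleton, coeff_monomial_same]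

theorem l1_mul (s t : ℤ[X]) : l1 (s * t) ≤ l1 s * l1 t := by
  rw [mul_eq_sum_sum]
  refine (l1_sum _ _).trans ?_
  rw [l1, sum_mul]
  refine sum_le_sum fun i _ => ?_
  rw [Polynomial.sum_def]
  refine (l1_sum _ _).trans ?_
  rw [l1, mul_sum]
  refine sum_le_sum fun j _ => ?_
  rw [l1_monomial, Int.cast_mul, abs_mul]

theorem card_le_l1 (s : ℤ[X]) : (s.support.card : ℝ) ≤ l1 s := by
  rw [l1, card_eq_sum_ones, Nat.cast_sum]
  refine sum_le_sum fun n hn => ?_
  have h := Int.one_le_abs (mem_support_iff.1 hn)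
  exact_mod_cast h

variable {b : ℕ}

/-- The value at `1 / b`. -/
noncomputable def ev (b : ℕ) (s : ℤ[X]) : ℝ := aeval ((b : ℝ)⁻¹) s

theorem ev_eq {s : ℤ[X]} {T : Finset ℕ} (h : s.support ⊆ T) :
    ev b s = ∑ n ∈ T, (s.coeff n : ℝ) * (b : ℝ)⁻¹ ^ n := by
  rw [ev, aeval_def, eval₂_eq_sum, Polynomial.sum_def]
  exact sum_subset h fun n _ hn => by simp [notMem_support_iff.1 hn]

theorem inv_pos' (hb : 2 ≤ b) : (0 : ℝ) < (b : ℝ)⁻¹ := by
  have hb0 : (0 : ℝ) < b := by exact_mod_cast (by omega : 0 < b)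
  positivity

theorem inv_le_half (hb : 2 ≤ b) : (b : ℝ)⁻¹ ≤ 1 / 2 := by
  have hb0 : (2 : ℝ) ≤ b := by exact_mod_cast hb
  rw [one_div]
  exact inv_anti₀ (by norm_num) hb0

theorem inv_pow_le (hb : 2 ≤ b) {m n : ℕ} (h : m ≤ n) : (b : ℝ)⁻¹ ^ n ≤ (b : ℝ)⁻¹ ^ m :=
  pow_le_pow_of_le_one (inv_pos' hb).le (by linarith [inv_le_half hb]) h

theorem inv_pow_le_one (hb : 2 ≤ b) (n : ℕ) : (b : ℝ)⁻¹ ^ n ≤ 1 := by
  simpa using inv_pow_le hb (Nat.zero_le n)

theorem inv_pow_mul_le (hb : 2 ≤ b) (L : ℕ) : (b : ℝ)⁻¹ ^ L * L ≤ 1 := by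
  have h1 : (b : ℝ)⁻¹ ^ L ≤ (1 / 2) ^ L := pow_le_pow_left₀ (inv_pos' hb).le (inv_le_half hb) L
  have h2 : (L : ℝ) ≤ 2 ^ L := by exact_mod_cast (Nat.lt_two_pow_self (n := L)).le
  calc (b : ℝ)⁻¹ ^ L * L ≤ (1 / 2) ^ L * 2 ^ L :=
        mul_le_mul h1 h2 (Nat.cast_nonneg _) (by positivity)
    _ = 1 := by rw [← mul_pow]; norm_num

theorem pow_mul_inv_pow (hb : 2 ≤ b) {m n : ℕ} (h : m ≤ n) :
    (b : ℝ) ^ m * (b : ℝ)⁻¹ ^ n = (b : ℝ)⁻¹ ^ (n - m) := by
  have hb0 : (b : ℝ) ≠ 0 := by exact_mod_cast (by omega : b ≠ 0)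
  obtain ⟨k, rfl⟩ := Nat.exists_eq_add_of_le h
  rw [pow_add, ← mul_assoc, ← mul_pow, mul_inv_cancel₀ hb0, one_pow, one_mul,
    Nat.add_sub_cancel_left]

theorem abs_ev_le (hb : 2 ≤ b) (s : ℤ[X]) : |ev b s| ≤ l1 s := by
  rw [ev_eq subset_rfl, l1]
  refine (abs_sum_le_sum_abs _ _).trans (sum_le_sum fun n _ => ?_)
  rw [abs_mul, abs_of_nonneg (pow_nonneg (inv_pos' hb).le n)]
  exact mul_le_of_le_one_right (abs_nonneg _) (inv_pow_le_one hb n)

/-- The integer given by the terms of degree at most `M`. -/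
noncomputable def trunc (b : ℕ) (s : ℤ[X]) (M : ℕ) : ℤ :=
  ∑ n ∈ range (M + 1), s.coeff n * (b : ℤ) ^ (M - n)

theorem trunc_sub (s t : ℤ[X]) (M : ℕ) : trunc b (s - t) M = trunc b s M - trunc b t M := by
  simp only [trunc, coeff_sub, sub_mul, sum_sub_distrib]

/-- The positions which are followed by a term of `s` within distance `L`. -/
noncomputable def bad (s : ℤ[X]) (L : ℕ) : Finset ℕ :=
  s.support.biUnion fun i => Ico (i - L) i

theorem card_bad (s : ℤ[X]) (L : ℕ) : ((bad s L).card : ℝ) ≤ l1 s * L := by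
  have h : (bad s L).card ≤ s.support.card * L :=
    card_biUnion_le_card_mul _ _ _ fun i _ => by rw [Nat.card_Ico]; omega
  calc ((bad s L).card : ℝ) ≤ s.support.card * L := by exact_mod_cast h
    _ ≤ l1 s * L := mul_le_mul_of_nonneg_right (card_le_l1 s) (Nat.cast_nonneg _)

theorem gap (hb : 2 ≤ b) {s : ℤ[X]} {L M : ℕ} (h : M ∉ bad s L) :
    |(b : ℝ) ^ M * ev b s - trunc b s M| ≤ l1 s * (b : ℝ)⁻¹ ^ L := by
  have hb0 : (b : ℝ) ≠ 0 := by exact_mod_cast (by omega : b ≠ 0)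
  have h1 : (trunc b s M : ℝ) = ∑ n ∈ range (M + 1),
      (b : ℝ) ^ M * ((s.coeff n : ℝ) * (b : ℝ)⁻¹ ^ n) := by
    rw [trunc]
    push_cast
    refine sum_congr rfl fun n hn => ?_
    rw [pow_sub₀ _ hb0 (Nat.lt_succ_iff.1 (mem_range.1 hn)), inv_pow]
    ring
  rw [h1, ev_eq (T := s.support ∪ range (M + 1)) subset_union_left, mul_sum,
    ← sum_sdiff (subset_union_right (s₁ := s.support) (s₂ := range (M + 1))), add_sub_cancel_right,
    l1, sum_mul]
  have h2 : (s.support ∪ range (M + 1)) \ range (M + 1) ⊆ s.support := fun n hn => by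
    rcases mem_union.1 (mem_sdiff.1 hn).1 with h3 | h3
    · exact h3
    · exact absurd h3 (mem_sdiff.1 hn).2
  refine (abs_sum_le_sum_abs _ _).trans (le_trans (sum_le_sum fun n hn => ?_)
    (sum_le_sum_of_subset_of_nonneg h2 fun n _ _ =>
      mul_nonneg (abs_nonneg _) (pow_nonneg (inv_pos' hb).le _)))
  have h4 : M < n := by
    have := (mem_sdiff.1 hn).2
    rw [mem_range] at this
    omega
  have h5 : M + L ≤ n := by
    by_contra h6
    exact h (mem_biUnion.2 ⟨n, h2 hn, mem_Ico.2 ⟨by omega, h4⟩⟩)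
  rw [mul_left_comm, pow_mul_inv_pow hb h4.le, abs_mul,
    abs_of_nonneg (pow_nonneg (inv_pos' hb).le _)]
  exact mul_le_mul_of_nonneg_left (inv_pow_le hb (by omega)) (abs_nonneg _)

/-- `s` has norm at most `H` and `s(1/b)` approximates `x` up to `H b^(-M)`. -/
def RepW (b : ℕ) (s : ℤ[X]) (x : ℝ) (M : ℕ) (H : ℝ) : Prop :=
  l1 s ≤ H ∧ |x - ev b s| ≤ H * (b : ℝ)⁻¹ ^ M

variable {s t : ℤ[X]} {x y H H' : ℝ} {M M' : ℕ}

theorem RepW.nonneg (h : RepW b s x M H) : 0 ≤ H := (l1_nonneg s).trans h.1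

theorem RepW.mono (hb : 2 ≤ b) (h : RepW b s x M H) (hM : M' ≤ M) (hH : H ≤ H') :
    RepW b s x M' H' :=
  ⟨h.1.trans hH, h.2.trans (mul_le_mul hH (inv_pow_le hb hM)
    (pow_nonneg (inv_pos' hb).le _) (h.nonneg.trans hH))⟩

theorem RepW.add (h : RepW b s x M H) (h' : RepW b t y M H') :
    RepW b (s + t) (x + y) M (H + H') := by
  refine ⟨(l1_add s t).trans (add_le_add h.1 h'.1), ?_⟩
  have e : x + y - ev b (s + t) = (x - ev b s) + (y - ev b t) := by
    simp only [ev, map_add]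
    ring
  rw [e, add_mul]
  exact (abs_add_le _ _).trans (add_le_add h.2 h'.2)

theorem RepW.neg (h : RepW b s x M H) : RepW b (-s) (-x) M H := by
  refine ⟨(l1_neg s).le.trans h.1, ?_⟩
  have e : -x - ev b (-s) = -(x - ev b s) := by
    simp only [ev, map_neg]
    ring
  rw [e, abs_neg]
  exact h.2

theorem RepW.intCast (hb : 2 ≤ b) (c : ℤ) (M : ℕ) : RepW b (C c) c M |(c : ℝ)| := by
  refine ⟨by rw [← monomial_zero_left, l1_monomial], ?_⟩
  have e : ev b (C c) = c := by simp [ev]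
  rw [e, sub_self, abs_zero]
  exact mul_nonneg (abs_nonneg _) (pow_nonneg (inv_pos' hb).le _)

theorem RepW.mul (hb : 2 ≤ b) (h : RepW b s x M H) (h' : RepW b t y M H') :
    RepW b (s * t) (x * y) M (3 * H * H') := by
  have h0 := h.nonneg
  have h0' := h'.nonneg
  have hu : 0 ≤ (b : ℝ)⁻¹ ^ M := pow_nonneg (inv_pos' hb).le _
  have hu1 := inv_pow_le_one hb M
  refine ⟨(l1_mul s t).trans ?_, ?_⟩
  · have := mul_le_mul h.1 h'.1 (l1_nonneg t) h0
    nlinarith [mul_nonneg h0 h0']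
  have e : x * y - ev b (s * t) = (x - ev b s) * y + ev b s * (y - ev b t) := by
    simp only [ev, map_mul]
    ring
  have hy : |y| ≤ 2 * H' := by
    have h1 := abs_add_le (y - ev b t) (ev b t)
    rw [sub_add_cancel] at h1
    have h2 := (abs_ev_le hb t).trans h'.1
    have h3 := h'.2.trans (mul_le_of_le_one_right h0' hu1)
    linarith
  rw [e]
  refine (abs_add_le _ _).trans ?_
  rw [abs_mul, abs_mul]
  have h4 := mul_le_mul h.2 hy (abs_nonneg _) (mul_nonneg h0 hu)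
  have h5 := mul_le_mul ((abs_ev_le hb s).trans h.1) h'.2 (abs_nonneg _) h0
  nlinarith

theorem RepW.pow (hb : 2 ≤ b) (h : RepW b s x M H) (k : ℕ) :
    RepW b (s ^ k) (x ^ k) M ((3 * H) ^ k) := by
  induction k with
  | zero => simpa using RepW.intCast hb 1 M
  | succ k ih =>
    have h1 := ih.mul hb h
    rw [← pow_succ, ← pow_succ] at h1
    exact h1.mono hb le_rfl (by rw [pow_succ]; exact le_of_eq (by ring))

theorem RepW.near (hb : 2 ≤ b) (h : RepW b s x M H) {n L : ℕ} (hn : n + L ≤ M)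
    (hbad : n ∉ bad s L) : |(b : ℝ) ^ n * x - trunc b s n| ≤ 2 * H * (b : ℝ)⁻¹ ^ L := by
  have hu : 0 ≤ (b : ℝ)⁻¹ ^ L := pow_nonneg (inv_pos' hb).le _
  have h1 := (gap hb hbad).trans (mul_le_mul_of_nonneg_right h.1 hu)
  have h2 : |(b : ℝ) ^ n * (x - ev b s)| ≤ H * (b : ℝ)⁻¹ ^ L := by
    rw [abs_mul, abs_of_nonneg (by positivity : (0 : ℝ) ≤ (b : ℝ) ^ n)]
    refine (mul_le_mul_of_nonneg_left h.2 (by positivity)).trans ?_
    rw [mul_left_comm, pow_mul_inv_pow hb (by omega)]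
    exact mul_le_mul_of_nonneg_left (inv_pow_le hb (by omega)) h.nonneg
  have h3 := abs_add_le ((b : ℝ) ^ n * (x - ev b s)) ((b : ℝ) ^ n * ev b s - trunc b s n)
  have e : (b : ℝ) ^ n * (x - ev b s) + ((b : ℝ) ^ n * ev b s - trunc b s n) =
      (b : ℝ) ^ n * x - trunc b s n := by ring
  rw [e] at h3
  linarith

/-- The expansion attached to a sequence of integers. -/
theorem exists_repW_of_seq (hb : 2 ≤ b) (G : ℕ → ℤ) (M : ℕ) {B : ℝ} (T : Finset ℕ)
    (hB : ∀ i, |(G (i + 1) : ℝ) - b * G i| ≤ B) (hT : ∀ i < M, i ∉ T → G (i + 1) = b * G i)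
    (hx : |(b : ℝ) ^ M * x - G M| ≤ 1) :
    ∃ s, RepW b s x M (|(G 0 : ℝ)| + B * T.card + 1) := by
  have hb0 : (b : ℝ) ≠ 0 := by exact_mod_cast (by omega : b ≠ 0)
  have hB0 : 0 ≤ B := (abs_nonneg _).trans (hB 0)
  have hu : 0 ≤ (b : ℝ)⁻¹ ^ M := pow_nonneg (inv_pos' hb).le _
  refine ⟨monomial 0 (G 0) + ∑ i ∈ range M, monomial (i + 1) (G (i + 1) - b * G i), ?_, ?_⟩
  · refine (l1_add _ _).trans ?_
    rw [l1_monomial]
    have h1 := l1_sum (range M) fun i => monomial (i + 1) (G (i + 1) - b * G i)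
    simp only [l1_monomial] at h1
    have h2 : ∑ i ∈ range M, |((G (i + 1) - b * G i : ℤ) : ℝ)| ≤
        ∑ i ∈ range M, if i ∈ T then B else 0 := by
      refine sum_le_sum fun i hi => ?_
      split_ifs with h
      · push_cast
        exact hB i
      · rw [hT i (mem_range.1 hi) h, sub_self, Int.cast_zero, abs_zero]
    rw [sum_ite_mem, sum_const, nsmul_eq_mul] at h2
    have h3 : ((range M ∩ T).card : ℝ) ≤ T.card := by
      exact_mod_cast card_le_card inter_subset_right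
    nlinarith
  · have e : ∀ m, ev b (monomial 0 (G 0) +
        ∑ i ∈ range m, monomial (i + 1) (G (i + 1) - b * G i)) = G m * (b : ℝ)⁻¹ ^ m := by
      intro m
      induction m with
      | zero => simp [ev]
      | succ m ih =>
        rw [sum_range_succ, ← add_assoc, ev, map_add, ← ev, ih, aeval_monomial]
        simp only [eq_intCast]
        push_cast
        have e3 : (b : ℝ) * (b : ℝ)⁻¹ = 1 := mul_inv_cancel₀ hb0
        linear_combination (-(G m : ℝ) * (b : ℝ)⁻¹ ^ m) * e3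
    have e2 : x - G M * (b : ℝ)⁻¹ ^ M = ((b : ℝ) ^ M * x - G M) * (b : ℝ)⁻¹ ^ M := by
      rw [sub_mul, mul_right_comm, pow_mul_inv_pow hb le_rfl, Nat.sub_self, pow_zero, one_mul]
    rw [e, e2, abs_mul, abs_of_nonneg hu]
    refine mul_le_mul_of_nonneg_right (hx.trans ?_) hu
    have := abs_nonneg (G 0 : ℝ)
    have := mul_nonneg hB0 (Nat.cast_nonneg (α := ℝ) T.card)
    linarith

/-- A number with `b ^ n x` close to an integer for most `n` has a sparse expansion. -/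
theorem exists_repW_of_near (hb : 2 ≤ b) (M : ℕ) (T : Finset ℕ)
    (h : ∀ n ≤ M, n ∉ T → ∃ k : ℤ, |(b : ℝ) ^ n * x - k| ≤ 1 / (4 * b)) :
    ∃ s, RepW b s x M (|x| + 2 + 2 * b * T.card) := by
  have hb2 : (2 : ℝ) ≤ b := by exact_mod_cast hb
  have key : ∀ i, |(round ((b : ℝ) ^ (i + 1) * x) : ℝ) - b * round ((b : ℝ) ^ i * x)| ≤
      |(b : ℝ) ^ (i + 1) * x - round ((b : ℝ) ^ (i + 1) * x)| +
        b * |(b : ℝ) ^ i * x - round ((b : ℝ) ^ i * x)| := fun i => by
    have e : (round ((b : ℝ) ^ (i + 1) * x) : ℝ) - b * round ((b : ℝ) ^ i * x) =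
        -((b : ℝ) ^ (i + 1) * x - round ((b : ℝ) ^ (i + 1) * x)) +
          b * ((b : ℝ) ^ i * x - round ((b : ℝ) ^ i * x)) := by ring
    rw [e]
    refine (abs_add_le _ _).trans ?_
    rw [abs_neg, abs_mul, abs_of_nonneg (by linarith : (0 : ℝ) ≤ b)]
  obtain ⟨s, hs⟩ := exists_repW_of_seq (x := x) hb (fun n => round ((b : ℝ) ^ n * x)) M
    (B := b) (T ∪ T.image (· - 1)) (fun i => by
      have h1 := abs_sub_round ((b : ℝ) ^ (i + 1) * x)
      have h2 := abs_sub_round ((b : ℝ) ^ i * x)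
      have h3 := key i
      nlinarith) (fun i hi hT => by
      obtain ⟨k, hk⟩ := h i hi.le fun h1 => hT (mem_union_left _ h1)
      obtain ⟨k', hk'⟩ := h (i + 1) hi fun h1 =>
        hT (mem_union_right _ (mem_image.2 ⟨i + 1, h1, rfl⟩))
      have h1 := (round_le _ k).trans hk
      have h2 := (round_le _ k').trans hk'
      have h3 := key i
      have h4 : (b : ℝ) * (1 / (4 * b)) = 1 / 4 := by field_simp
      have h5 : (1 : ℝ) / (4 * b) ≤ 1 / 4 := one_div_le_one_div_of_le (by norm_num) (by linarith)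
      have h6 := mul_le_mul_of_nonneg_left h1 (by linarith : (0 : ℝ) ≤ b)
      have h7 : |round ((b : ℝ) ^ (i + 1) * x) - b * round ((b : ℝ) ^ i * x)| < (1 : ℤ) := by
        have : |(round ((b : ℝ) ^ (i + 1) * x) : ℝ) - b * round ((b : ℝ) ^ i * x)| < 1 := by
          linarith
        exact_mod_cast this
      exact sub_eq_zero.1 (Int.abs_lt_one_iff.1 h7))
    ((abs_sub_round _).trans (by norm_num))
  refine ⟨s, hs.mono hb le_rfl ?_⟩
  have h1 : ((T ∪ T.image (· - 1)).card : ℝ) ≤ 2 * T.card := by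
    have := (card_union_le T (T.image (· - 1))).trans (Nat.add_le_add_left card_image_le _)
    exact_mod_cast (by omega : (T ∪ T.image (· - 1)).card ≤ 2 * T.card)
  have h2 : |(round ((b : ℝ) ^ 0 * x) : ℝ)| ≤ |x| + 1 := by
    rw [pow_zero, one_mul]
    have h3 := abs_sub_round x
    have h4 := abs_sub_abs_le_abs_sub (round x : ℝ) x
    rw [abs_sub_comm] at h4
    linarith
  nlinarith

/-- The Frobenius congruence for truncations. -/
theorem trunc_pow (p : ℕ) [Fact p.Prime] (s : ℤ[X]) (j n : ℕ) :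
    ((trunc b (s ^ p ^ j) (p ^ j * n) : ℤ) : ZMod p) = trunc b s n := by
  have hq : 0 < p ^ j := pow_pos (Fact.out : p.Prime).pos j
  have h1 : ∀ (f : (ZMod p)[X]) (k : ℕ), f ^ p ^ k = expand (ZMod p) (p ^ k) f := by
    intro f k
    induction k with
    | zero => simp
    | succ k ih => rw [pow_succ, pow_mul, ih, mul_comm, expand_mul, ZMod.expand_card]
  have h2 : ∀ i, (((s ^ p ^ j).coeff i : ℤ) : ZMod p) =
      if p ^ j ∣ i then ((s.coeff (i / p ^ j) : ℤ) : ZMod p) else 0 := fun i => by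
    have h3 := coeff_map (p := s ^ p ^ j) (Int.castRingHom (ZMod p)) i
    rw [Polynomial.map_pow, h1, coeff_expand hq, coeff_map] at h3
    exact h3.symm
  simp only [trunc, Int.cast_sum, Int.cast_mul, Int.cast_pow, Int.cast_natCast, h2]
  rw [← sum_subset (s₁ := (range (n + 1)).image (p ^ j * ·)), sum_image]
  · refine sum_congr rfl fun i _ => ?_
    rw [if_pos (dvd_mul_right _ _), Nat.mul_div_cancel_left _ hq, ← Nat.mul_sub, mul_comm (p ^ j),
      pow_mul, ZMod.pow_card_pow]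
  · exact fun a _ c _ h => Nat.eq_of_mul_eq_mul_left hq h
  · intro i hi
    obtain ⟨a, ha, rfl⟩ := mem_image.1 hi
    exact mem_range.2 (Nat.lt_succ_of_le
      (Nat.mul_le_mul_left _ (Nat.lt_succ_iff.1 (mem_range.1 ha))))
  · intro i hi hi'
    rw [if_neg, zero_mul]
    rintro ⟨a, rfl⟩
    exact hi' (mem_image.2 ⟨a, mem_range.2 (Nat.lt_succ_of_le
      (Nat.le_of_mul_le_mul_left (Nat.lt_succ_iff.1 (mem_range.1 hi)) hq)), rfl⟩)

end Pool.Agent.P.MP_c8ecb2_nt.H11
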