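import Mathlib
import Pool.Agent.P.MP_c8ecb2_nt.H11.Rep

/-!
The ring of numbers with sparse expansions and its closure under division of nilpotent elements.
-/

set_option autoImplicit false

open Polynomial Finset

namespace Pool.Agent.P.MP_c8ecb2_nt.H11

/-- `f` is bounded by a power of `H`. -/
def PB (H : ℕ → ℕ) (f : ℕ → ℝ) : Prop := ∃ A : ℕ, ∀ N, |f N| ≤ (H N : ℝ) ^ A

variable {b : ℕ} {H : ℕ → ℕ} {f g : ℕ → ℝ} {x y : ℝ}

theorem pow_le_pow_H (hH : ∀ N, 2 ≤ H N) (N : ℕ) {A B : ℕ} (h : A ≤ B) :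
    (H N : ℝ) ^ A ≤ (H N : ℝ) ^ B :=
  pow_le_pow_right₀ (by exact_mod_cast (by have := hH N; omega : 1 ≤ H N)) h

theorem PB.const (hH : ∀ N, 2 ≤ H N) (c : ℝ) : PB H fun _ => c := by
  obtain ⟨A, hA⟩ := pow_unbounded_of_one_lt |c| (one_lt_two (α := ℝ))
  exact ⟨A, fun N => hA.le.trans (pow_le_pow_left₀ (by norm_num) (by exact_mod_cast hH N) A)⟩

theorem PB.self_pow (A : ℕ) : PB H fun N => (H N : ℝ) ^ A :=
  ⟨A, fun N => by rw [abs_of_nonneg (by positivity)]⟩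

theorem PB.mul (hf : PB H f) (hg : PB H g) : PB H fun N => f N * g N := by
  obtain ⟨A, hA⟩ := hf
  obtain ⟨B, hB⟩ := hg
  refine ⟨A + B, fun N => ?_⟩
  rw [abs_mul, pow_add]
  exact mul_le_mul (hA N) (hB N) (abs_nonneg _) (by positivity)

theorem PB.pow (hf : PB H f) (k : ℕ) : PB H fun N => f N ^ k := by
  obtain ⟨A, hA⟩ := hf
  refine ⟨A * k, fun N => ?_⟩
  rw [abs_pow, pow_mul]
  exact pow_le_pow_left₀ (abs_nonneg _) (hA N) k

theorem PB.add (hH : ∀ N, 2 ≤ H N) (hf : PB H f) (hg : PB H g) : PB H fun N => f N + g N := by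
  obtain ⟨A, hA⟩ := hf
  obtain ⟨B, hB⟩ := hg
  refine ⟨A + B + 1, fun N => (abs_add_le _ _).trans ?_⟩
  have h1 := pow_le_pow_H hH N (Nat.le_add_right A B)
  have h2 := pow_le_pow_H hH N (Nat.le_add_left B A)
  have h3 : (2 : ℝ) ≤ H N := by exact_mod_cast hH N
  have h4 : (0 : ℝ) ≤ (H N : ℝ) ^ (A + B) := by positivity
  rw [pow_succ]
  nlinarith [hA N, hB N]

/-- For every `N` the number `x` has an expansion of norm polynomial in `H N` which is exact up to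
a fixed fraction of `N` places. -/
def Good (b : ℕ) (H : ℕ → ℕ) (x : ℝ) : Prop :=
  ∃ D A : ℕ, 0 < D ∧ ∀ N, ∃ s, RepW b s x (N / D) ((H N : ℝ) ^ A)

theorem Good.intro (hb : 2 ≤ b) {D : ℕ} (hD : 0 < D) (hf : PB H f)
    (h : ∀ N, ∃ s, RepW b s x (N / D) (f N)) : Good b H x := by
  obtain ⟨A, hA⟩ := hf
  refine ⟨D, A, hD, fun N => ?_⟩
  obtain ⟨s, hs⟩ := h N
  exact ⟨s, hs.mono hb le_rfl ((le_abs_self _).trans (hA N))⟩

theorem Good.both (hb : 2 ≤ b) (hH : ∀ N, 2 ≤ H N) (hx : Good b H x) (hy : Good b H y) :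
    ∃ D A : ℕ, 0 < D ∧ ∀ N, (∃ s, RepW b s x (N / D) ((H N : ℝ) ^ A)) ∧
      ∃ s, RepW b s y (N / D) ((H N : ℝ) ^ A) := by
  obtain ⟨D, A, hD, h⟩ := hx
  obtain ⟨D', A', hD', h'⟩ := hy
  refine ⟨D * D', A + A', Nat.mul_pos hD hD', fun N => ⟨?_, ?_⟩⟩
  · obtain ⟨s, hs⟩ := h N
    exact ⟨s, hs.mono hb (Nat.div_le_div_left (Nat.le_mul_of_pos_right _ hD') hD)
      (pow_le_pow_H hH N (Nat.le_add_right _ _))⟩
  · obtain ⟨s, hs⟩ := h' N
    exact ⟨s, hs.mono hb (Nat.div_le_div_left (Nat.le_mul_of_pos_left _ hD) hD')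
      (pow_le_pow_H hH N (Nat.le_add_left _ _))⟩

theorem Good.intCast (hb : 2 ≤ b) (hH : ∀ N, 2 ≤ H N) (c : ℤ) : Good b H c :=
  Good.intro hb one_pos (PB.const hH _) fun _ => ⟨_, RepW.intCast hb c _⟩

/-- The numbers with sparse expansions form a ring. -/
def goodRing (hb : 2 ≤ b) (hH : ∀ N, 2 ≤ H N) : Subring ℝ where
  carrier := {x | Good b H x}
  mul_mem' hx hy := by
    obtain ⟨D, A, hD, h⟩ := Good.both hb hH hx hy
    refine Good.intro hb hD (((PB.const hH 3).mul (PB.self_pow A)).mul (PB.self_pow A)) fun N => ?_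
    obtain ⟨⟨s, hs⟩, t, ht⟩ := h N
    exact ⟨_, hs.mul hb ht⟩
  one_mem' := by simpa using Good.intCast hb hH 1
  add_mem' hx hy := by
    obtain ⟨D, A, hD, h⟩ := Good.both hb hH hx hy
    refine Good.intro hb hD (PB.add hH (PB.self_pow A) (PB.self_pow A)) fun N => ?_
    obtain ⟨⟨s, hs⟩, t, ht⟩ := h N
    exact ⟨_, hs.add ht⟩
  zero_mem' := by simpa using Good.intCast hb hH 0
  neg_mem' := by
    rintro x ⟨D, A, hD, h⟩
    refine ⟨D, A, hD, fun N => ?_⟩
    obtain ⟨s, hs⟩ := h N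
    exact ⟨_, hs.neg⟩

theorem small_of_large (hb : 2 ≤ b) {c W : ℝ} {L : ℕ} (hc : 0 < c) (hL : c * W ≤ L) :
    W * (b : ℝ)⁻¹ ^ L ≤ 1 / c := by
  rw [le_div_iff₀ hc]
  have h1 := inv_pow_mul_le hb L
  have h2 := mul_le_mul_of_nonneg_left hL (pow_nonneg (inv_pos' hb).le L)
  linarith

/-- If `u` represents `p y` and `t` represents `y`, most truncations of `u` are multiples of `p`. -/
theorem trunc_eq_mul (hb : 2 ≤ b) {u t : ℤ[X]} {p M n L : ℕ} {W : ℝ} (hp : 1 ≤ p)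
    (hu : RepW b u (p * y) M W) (ht : RepW b t y M W) (hL : 8 * p * W ≤ L) (hn : n + L ≤ M)
    (h1 : n ∉ bad u L) (h2 : n ∉ bad t L) : trunc b u n = p * trunc b t n := by
  have hp1 : (1 : ℝ) ≤ p := by exact_mod_cast hp
  have h3 := hu.near hb hn h1
  have h4 := ht.near hb hn h2
  have h5 := small_of_large hb (by linarith : (0 : ℝ) < 8 * p) hL
  have h6 : (p : ℝ) * (1 / (8 * p)) = 1 / 8 := by field_simp
  have h7 : (1 : ℝ) / (8 * p) ≤ 1 / 8 := one_div_le_one_div_of_le (by norm_num) (by linarith)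
  have e : (trunc b u n : ℝ) - p * trunc b t n =
      -((b : ℝ) ^ n * (p * y) - trunc b u n) + p * ((b : ℝ) ^ n * y - trunc b t n) := by ring
  have h8 : |(trunc b u n : ℝ) - p * trunc b t n| < 1 := by
    rw [e]
    refine (abs_add_le _ _).trans_lt ?_
    rw [abs_neg, abs_mul, abs_of_nonneg (by linarith : (0 : ℝ) ≤ p)]
    have h9 := mul_le_mul_of_nonneg_left h4 (by linarith : (0 : ℝ) ≤ p)
    have h10 := mul_le_mul_of_nonneg_left h5 (by linarith : (0 : ℝ) ≤ p)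
    nlinarith
  have h9 : |trunc b u n - p * trunc b t n| < (1 : ℤ) := by exact_mod_cast h8
  exact sub_eq_zero.1 (Int.abs_lt_one_iff.1 h9)

theorem card_filter_mul_mem {q : ℕ} (hq : 0 < q) (S T : Finset ℕ) :
    (S.filter fun n => q * n ∈ T).card ≤ T.card :=
  card_le_card_of_injOn (q * ·) (fun _ hn => (mem_filter.1 (mem_coe.1 hn)).2)
    fun _ _ _ _ h => Nat.eq_of_mul_eq_mul_left hq h

/-- The division step at a fixed precision. -/
theorem exists_repW_div (hb : 2 ≤ b) {p : ℕ} (hp : p.Prime) {j M W : ℕ} {s t : ℤ[X]}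
    (hxy : x ^ p ^ j = p * y) (hs : RepW b s x M W) (hu : RepW b (s ^ p ^ j) (x ^ p ^ j) M W)
    (ht : RepW b t y M W) :
    ∃ r, RepW b r (x / p) (M / p ^ j)
      (|x / p| + 2 + 2 * b * ((3 * W + 1) * (8 * b * p * W))) := by
  have := Fact.mk hp
  have hq : 0 < p ^ j := pow_pos hp.pos j
  have hp1 : (1 : ℝ) ≤ p := by exact_mod_cast hp.one_lt.le
  have hb2 : (2 : ℝ) ≤ b := by exact_mod_cast hb
  have hW : (0 : ℝ) ≤ W := Nat.cast_nonneg _
  obtain ⟨L, hL⟩ : ∃ L : ℕ, L = 8 * b * p * W := ⟨_, rfl⟩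
  have hL' : (L : ℝ) = 8 * b * p * W := by rw [hL]; push_cast; ring
  obtain ⟨r, hr⟩ := exists_repW_of_near (x := x / p) hb (M / p ^ j)
    (bad s L ∪ (range (M + 1)).filter fun n =>
      p ^ j * n ∈ bad (s ^ p ^ j) L ∪ bad t L ∪ Ico (M + 1 - L) (M + 1)) fun n hn hT => by
    have h1 : p ^ j * n ≤ M := by
      rw [mul_comm]
      exact (Nat.le_div_iff_mul_le hq).1 hn
    have h2 : n ≤ p ^ j * n := Nat.le_mul_of_pos_left _ hq
    simp only [mem_union, mem_filter, mem_range, mem_Ico, not_or, not_and] at hT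
    obtain ⟨h3, h4⟩ := hT
    obtain ⟨⟨h5, h6⟩, h7⟩ := h4 (by omega)
    rcases Nat.lt_or_ge M (p ^ j * n + L) with h8 | h8
    · exact absurd (by omega) (h7 (by omega))
    rw [hxy] at hu
    have h9 := trunc_eq_mul hb hp.one_lt.le hu ht
      (by rw [hL']; nlinarith [mul_nonneg (by linarith : (0 : ℝ) ≤ p) hW]) h8 h5 h6
    have h10 : (p : ℤ) ∣ trunc b s n := by
      rw [← ZMod.intCast_zmod_eq_zero_iff_dvd, ← trunc_pow p s j n, h9]
      simp
    obtain ⟨k, hk⟩ := h10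
    refine ⟨k, ?_⟩
    have h11 := hs.near hb (by omega : n + L ≤ M) h3
    have h12 := small_of_large hb (by positivity : (0 : ℝ) < 8 * b * p) hL'.ge
    have e : (b : ℝ) ^ n * (x / p) - k = ((b : ℝ) ^ n * x - trunc b s n) / p := by
      rw [hk]
      push_cast
      field_simp
    rw [e, abs_div, abs_of_nonneg (by linarith : (0 : ℝ) ≤ p)]
    refine (div_le_self (abs_nonneg _) hp1).trans (h11.trans ?_)
    have h13 : (1 : ℝ) / (8 * b * p) ≤ 1 / (8 * b) :=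
      one_div_le_one_div_of_le (by positivity) (by nlinarith)
    have h14 : (1 : ℝ) / (4 * b) = 2 * (1 / (8 * b)) := by field_simp; norm_num
    linarith
  refine ⟨r, hr.mono hb le_rfl ?_⟩
  have h1 := (card_union_le (bad s L) _).trans (Nat.add_le_add_left
    ((card_filter_mul_mem hq (range (M + 1))
      (bad (s ^ p ^ j) L ∪ bad t L ∪ Ico (M + 1 - L) (M + 1))).trans
      ((card_union_le _ _).trans (Nat.add_le_add (card_union_le _ _)
        (by rw [Nat.card_Ico]; omega : _ ≤ L)))) _)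
  have hL0 : (0 : ℝ) ≤ L := Nat.cast_nonneg _
  have h2 := (card_bad s L).trans (mul_le_mul_of_nonneg_right hs.1 hL0)
  have h3 := (card_bad (s ^ p ^ j) L).trans (mul_le_mul_of_nonneg_right hu.1 hL0)
  have h4 := (card_bad t L).trans (mul_le_mul_of_nonneg_right ht.1 hL0)
  have h5 := (Nat.cast_le (α := ℝ)).2 h1
  push_cast at h5
  rw [← hL']
  exact add_le_add_right (mul_le_mul_of_nonneg_left (by linarith) (by linarith)) _

/-- If a power of `x` is divisible by `p` in the ring, then so is `x`. -/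
theorem Good.div (hb : 2 ≤ b) (hH : ∀ N, 2 ≤ H N) {p : ℕ} (hp : p.Prime) {k : ℕ}
    (hx : Good b H x) (hy : Good b H y) (hxy : x ^ k = p * y) : Good b H (x / p) := by
  have hk : k ≤ p ^ k := (Nat.lt_pow_self hp.one_lt).le
  have hy' : Good b H (y * x ^ (p ^ k - k)) :=
    (goodRing hb hH).mul_mem hy ((goodRing hb hH).pow_mem (show x ∈ goodRing hb hH from hx) _)
  have e : x ^ p ^ k = p * (y * x ^ (p ^ k - k)) := by
    rw [← mul_assoc, ← hxy, ← pow_add, Nat.add_sub_cancel' hk]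
  obtain ⟨D, A, hD, h⟩ := Good.both hb hH hx hy'
  obtain ⟨B, hB⟩ := ((PB.const hH 3).mul (PB.self_pow A)).pow (p ^ k)
  refine Good.intro hb (D := D * p ^ k) (Nat.mul_pos hD (pow_pos hp.pos k))
    (PB.add hH (PB.const hH (|x / p| + 2)) ((PB.const hH (2 * b)).mul
      ((PB.add hH ((PB.const hH 3).mul (PB.self_pow (A + B))) (PB.const hH 1)).mul
        ((PB.const hH (8 * b * p)).mul (PB.self_pow (A + B)))))) fun N => ?_
  obtain ⟨⟨s, hs⟩, t, ht⟩ := h N
  have h1 : (H N : ℝ) ^ A ≤ ((H N ^ (A + B) : ℕ) : ℝ) := by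
    push_cast
    exact pow_le_pow_H hH N (Nat.le_add_right _ _)
  have h2 : (3 * (H N : ℝ) ^ A) ^ p ^ k ≤ ((H N ^ (A + B) : ℕ) : ℝ) := by
    push_cast
    exact (le_abs_self _).trans ((hB N).trans (pow_le_pow_H hH N (Nat.le_add_left _ _)))
  have h3 := exists_repW_div hb hp e (hs.mono hb le_rfl h1) ((hs.pow hb _).mono hb le_rfl h2)
    (ht.mono hb le_rfl h1)
  rw [Nat.div_div_eq_div_mul] at h3
  exact_mod_cast h3

/-- A fraction whose denominator is a prime not dividing `b` has no sparse expansion. -/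
theorem Good.bound (hb : 2 ≤ b) (hH : ∀ N, 2 ≤ H N) {p : ℕ} (hp : p.Prime) (hpb : ¬ p ∣ b)
    {n : ℤ} (hn : ¬ (p : ℤ) ∣ n) (h : Good b H (n / p)) :
    ∃ D A : ℕ, 0 < D ∧ ∀ N, N / D ≤ H N ^ A := by
  obtain ⟨D, A, hD, h⟩ := h
  have hp0 : (0 : ℝ) < p := by exact_mod_cast hp.pos
  obtain ⟨B, hB⟩ := (PB.add hH (PB.self_pow A) (PB.const hH 1)).mul
    ((PB.const hH (4 * p)).mul (PB.self_pow A))
  refine ⟨D, B, hD, fun N => ?_⟩
  obtain ⟨s, hs⟩ := h N
  obtain ⟨L, hL⟩ : ∃ L : ℕ, L = 4 * p * H N ^ A := ⟨_, rfl⟩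
  have hL' : (L : ℝ) = 4 * p * (H N : ℝ) ^ A := by rw [hL]; push_cast; ring
  have h1 : range (N / D + 1 - L) ⊆ bad s L := fun m hm => by
    by_contra h2
    have h3 := hs.near hb (by have := mem_range.1 hm; omega : m + L ≤ N / D) h2
    have h4 := small_of_large hb (by positivity : (0 : ℝ) < 4 * p) hL'.ge
    have h5 : |((b : ℤ) ^ m * n - p * trunc b s m : ℤ)| < 1 := by
      have e : (b : ℝ) ^ m * n - p * trunc b s m =
          p * ((b : ℝ) ^ m * (n / p) - trunc b s m) := by field_simp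
      have h6 : |(b : ℝ) ^ m * n - p * trunc b s m| < 1 := by
        rw [e, abs_mul, abs_of_pos hp0]
        have h7 := mul_le_mul_of_nonneg_left h3 hp0.le
        have h8 := mul_le_mul_of_nonneg_left h4 hp0.le
        have h9 : (p : ℝ) * (1 / (4 * p)) = 1 / 4 := by field_simp
        nlinarith
      exact_mod_cast h6
    have h6 : (p : ℤ) ∣ (b : ℤ) ^ m * n := ⟨_, sub_eq_zero.1 (Int.abs_lt_one_iff.1 h5)⟩
    rcases (Nat.prime_iff_prime_int.1 hp).dvd_or_dvd h6 with h7 | h7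
    · exact hpb (by exact_mod_cast (Nat.prime_iff_prime_int.1 hp).dvd_of_dvd_pow h7)
    · exact hn h7
  have h2 := card_le_card h1
  rw [card_range] at h2
  have h3 := (card_bad s L).trans (mul_le_mul_of_nonneg_right hs.1 (Nat.cast_nonneg L))
  have h4 : ((N / D : ℕ) : ℝ) ≤ (bad s L).card + L := by exact_mod_cast (by omega)
  have h5 := (le_abs_self _).trans (hB N)
  simp only [← hL'] at h5
  have h6 : ((N / D : ℕ) : ℝ) ≤ (H N : ℝ) ^ B := by linarith
  exact_mod_cast h6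

end Pool.Agent.P.MP_c8ecb2_nt.H11
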