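import Mathlib
import Pool.Agent.P.MP_c8ecb2_nt.H11.Good

/-!
Number fields with a prime all of whose divisors are ramified or poles: a power saving for the
number of digit changes.
-/

set_option autoImplicit false

open Polynomial Finset NumberField IsDedekindDomain

namespace Pool.Agent.P.MP_c8ecb2_nt.H11

section

variable {K : Type} [Field K] [NumberField K] {p : ℕ} {B : Subring K}

/-- A subring in which `p`-nilpotent elements are divisible by `p` is integrally closed at `p`. -/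
theorem mem_of_integral (hp : p.Prime)
    (hdiv : ∀ (y z : K) (k : ℕ), y ∈ B → z ∈ B → y ^ k = p * z → y / p ∈ B)
    (hcop : ∀ (y : K) (m : ℕ), ¬ p ∣ m → (m : K) * y ∈ B → y ∈ B) {x : K} (hx : IsIntegral ℤ x)
    (m : ℕ) (hm : m ≠ 0) (h : (m : K) * x ∈ B) : x ∈ B := by
  induction m using Nat.strong_induction_on with
  | _ m ih =>
  by_cases hpm : p ∣ m
  swap
  · exact hcop x m hpm h
  obtain ⟨m', rfl⟩ := hpm
  have hm' : m' ≠ 0 := fun h0 => hm (by rw [h0, mul_zero])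
  have hp0 : (p : K) ≠ 0 := Nat.cast_ne_zero.2 hp.ne_zero
  refine ih m' (lt_mul_of_one_lt_left (Nat.pos_of_ne_zero hm') hp.one_lt) hm' ?_
  obtain ⟨f, hf, h0⟩ : IsIntegral ℤ ((m' : K) * x) :=
    (show IsIntegral ℤ (m' : K) by simpa using isIntegral_algebraMap (R := ℤ) (x := (m' : ℤ))).mul hx
  rw [← aeval_def, aeval_eq_sum_range, sum_range_succ, hf.coeff_natDegree, one_smul] at h0
  have e : (((p * m' : ℕ) : K) * x) ^ f.natDegree = p * -∑ i ∈ range f.natDegree,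
      (f.coeff i : K) * (p : K) ^ (f.natDegree - 1 - i) * (((p * m' : ℕ) : K) * x) ^ i := by
    rw [Nat.cast_mul, mul_assoc, mul_pow, eq_neg_of_add_eq_zero_right h0, mul_neg, mul_neg, mul_sum,
      mul_sum]
    refine congrArg _ (sum_congr rfl fun i hi => ?_)
    have h1 : f.natDegree = 1 + (f.natDegree - 1 - i) + i := by
      have := mem_range.1 hi
      omega
    rw [zsmul_eq_mul, mul_pow (p : K)]
    conv_lhs => rw [h1, pow_add, pow_add]
    ring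
  have h2 := hdiv _ _ _ h (B.neg_mem (B.sum_mem fun i _ => B.mul_mem
    (B.mul_mem (intCast_mem B _) (B.pow_mem (natCast_mem B p) _)) (B.pow_mem h i))) e
  have e2 : ((p * m' : ℕ) : K) * x / p = m' * x := by
    push_cast
    field_simp
  rwa [e2] at h2

theorem inv_mem_of_ramified (hp : p.Prime)
    (hdiv : ∀ (y z : K) (k : ℕ), y ∈ B → z ∈ B → y ^ k = p * z → y / p ∈ B)
    (hint : ∀ x : 𝓞 K, (x : K) ∈ B)
    (hv : ∀ v : HeightOneSpectrum (𝓞 K), (p : 𝓞 K) ∈ v.asIdeal →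
      (p : 𝓞 K) ∈ v.asIdeal ^ 2 ∨ ∃ y ∈ B, 1 < v.valuation K y) : (p : K)⁻¹ ∈ B := by
  by_contra hcon
  have hp0 : (p : K) ≠ 0 := Nat.cast_ne_zero.2 hp.ne_zero
  have hp0' : (p : 𝓞 K) ≠ 0 := Nat.cast_ne_zero.2 hp.ne_zero
  have h1 : Ideal.span {(p : B)} ≠ ⊤ := fun h => by
    obtain ⟨z, hz⟩ := Ideal.mem_span_singleton'.1 ((Ideal.eq_top_iff_one _).1 h)
    have h2 : (z : K) * p = 1 := by simpa using congrArg Subtype.val hz
    exact hcon (eq_inv_of_mul_eq_one_left h2 ▸ z.2)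
  obtain ⟨M, hM, hpM⟩ := Ideal.exists_le_maximal _ h1
  let φ : 𝓞 K →+* B := (algebraMap (𝓞 K) K).codRestrict B hint
  have hpP : (p : 𝓞 K) ∈ M.comap φ := by
    rw [Ideal.mem_comap, map_natCast]
    exact hpM (Ideal.mem_span_singleton_self _)
  let v : HeightOneSpectrum (𝓞 K) :=
    ⟨M.comap φ, Ideal.comap_isPrime φ M, fun h => hp0' (by rwa [h] at hpP)⟩
  have key : ∀ y ∈ B, v.valuation K y ≤ 1 := fun y hy => by
    by_contra h
    rw [not_le] at h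
    have hy0 : y ≠ 0 := fun h0 => by simp [h0] at h
    have h2 : v.valuation K y⁻¹ < 1 := by
      rw [map_inv₀]
      exact inv_lt_one_of_one_lt₀ h
    obtain ⟨n, d, hnd⟩ := v.exists_primeCompl_mul_eq_of_integer y⁻¹ h2.le
    have h3 : n ∈ v.asIdeal := by
      rw [← v.valuation_lt_one_iff_mem (K := K)]
      change v.valuation K (algebraMap (𝓞 K) K n) < 1
      rw [← hnd, map_mul]
      exact (mul_le_of_le_one_right' (v.valuation_le_one _)).trans_lt h2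
    refine d.2 (show φ d ∈ M from ?_)
    have h4 : φ d = ⟨y, hy⟩ * φ n := Subtype.ext (by
      change algebraMap (𝓞 K) K d = y * algebraMap (𝓞 K) K n
      rw [← hnd, ← mul_assoc, mul_inv_cancel₀ hy0, one_mul])
    rw [h4]
    exact M.mul_mem_left _ h3
  rcases hv v hpP with h | ⟨y, hy, h⟩
  swap
  · exact absurd (key y hy) (not_le.2 h)
  have := v.isMaximal
  obtain ⟨Q, hQ, hfac⟩ := Ideal.eq_prime_pow_mul_coprime
    (I := Ideal.span {(p : 𝓞 K)}) (by simpa using hp0') v.asIdeal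
  generalize Multiset.count v.asIdeal _ = e at hfac
  obtain ⟨π, hπ⟩ := v.intValuation_exists_uniformizer
  obtain ⟨w, hwQ, hw⟩ : ∃ w ∈ Q, w ∉ v.asIdeal := by
    by_contra h2
    push Not at h2
    exact v.isPrime.ne_top (by rw [← hQ, sup_eq_left.2 h2])
  have hπ1 : π ∈ v.asIdeal := by
    rw [← pow_one v.asIdeal, ← v.intValuation_le_pow_iff_mem, hπ]
    exact le_rfl
  have h2 : (π * w) ^ (e + 1) ∈ Ideal.span {(p : 𝓞 K)} := by
    rw [hfac, mul_pow]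
    exact Ideal.mul_mem_mul (by rw [pow_succ]; exact Ideal.mul_mem_right _ _ (Ideal.pow_mem_pow hπ1 e))
      (Q.pow_mem_of_mem hwQ _ e.succ_pos)
  obtain ⟨z, hz⟩ := Ideal.mem_span_singleton'.1 h2
  have h3 := key _ (hdiv _ _ (e + 1) (hint (π * w)) (hint z) (by
    have := congrArg (algebraMap (𝓞 K) K) hz
    simp only [map_mul, map_pow, map_natCast] at this
    change (algebraMap (𝓞 K) K (π * w)) ^ (e + 1) = p * algebraMap (𝓞 K) K z
    rw [map_mul, ← this, mul_comm]))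
  have h4 : v.valuation K (p : K) ≤ WithZero.exp (-2 : ℤ) := by
    rw [← map_natCast (algebraMap (𝓞 K) K)]
    exact (v.valuation_of_algebraMap (K := K) _).trans_le ((v.intValuation_le_pow_iff_mem _ 2).2 h)
  have h5 : v.valuation K ((π * w : 𝓞 K) : K) = WithZero.exp (-1 : ℤ) := by
    refine (v.valuation_of_algebraMap (K := K) _).trans ?_
    rw [map_mul, hπ, v.intValuation_eq_one_iff.2 hw, mul_one]
  rw [map_div₀, h5, div_le_one₀ (zero_lt_iff.2 ((Valuation.ne_zero_iff _).2 hp0))] at h3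
  have h6 := WithZero.exp_le_exp.1 (h3.trans h4)
  omega

end

variable {b : ℕ} {H : ℕ → ℕ}

/-- The arithmetic core. -/
theorem bound_of_ramified (hb : 2 ≤ b) (hH : ∀ N, 2 ≤ H N) {K : Type} [Field K] [NumberField K]
    (ι : K →+* ℝ) {n : ℕ} (α : Fin n → K) (hα : Algebra.adjoin ℚ (Set.range α) = ⊤) {a p : ℕ}
    (ha : a ≠ 0) (hp : p.Prime) (hpb : ¬ p ∣ b) (hG : ∀ j, Good b H (a * ι (α j)))
    (hv : ∀ v : HeightOneSpectrum (𝓞 K), (p : 𝓞 K) ∈ v.asIdeal →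
      (p : 𝓞 K) ∈ v.asIdeal ^ 2 ∨ ∃ j, 1 < v.valuation K (a * α j)) :
    ∃ D A : ℕ, 0 < D ∧ ∀ N, N / D ≤ H N ^ A := by
  let R := goodRing hb hH
  have hcop : ∀ {m m' : ℕ}, ¬ p ∣ m → ¬ p ∣ m' → ¬ p ∣ m * m' := fun h h' h2 =>
    ((Nat.Prime.dvd_mul hp).1 h2).elim h h'
  have h1 : ¬ p ∣ 1 := hp.not_dvd_one
  let B : Subring K :=
    { carrier := {y | ∃ m : ℕ, ¬ p ∣ m ∧ (m : ℝ) * ι y ∈ R}
      mul_mem' := by
        rintro y z ⟨m, hm, hy⟩ ⟨m', hm', hz⟩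
        refine ⟨m * m', hcop hm hm', ?_⟩
        have e : ((m * m' : ℕ) : ℝ) * ι (y * z) = (m * ι y) * (m' * ι z) := by
          rw [map_mul]; push_cast; ring
        rw [e]
        exact R.mul_mem hy hz
      one_mem' := ⟨1, h1, by simp⟩
      add_mem' := by
        rintro y z ⟨m, hm, hy⟩ ⟨m', hm', hz⟩
        refine ⟨m * m', hcop hm hm', ?_⟩
        have e : ((m * m' : ℕ) : ℝ) * ι (y + z) = m' * (m * ι y) + m * (m' * ι z) := by
          rw [map_add]; push_cast; ring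
        rw [e]
        exact R.add_mem (R.mul_mem (natCast_mem R _) hy) (R.mul_mem (natCast_mem R _) hz)
      zero_mem' := ⟨1, h1, by simp⟩
      neg_mem' := by
        rintro y ⟨m, hm, hy⟩
        exact ⟨m, hm, by rw [map_neg, mul_neg]; exact R.neg_mem hy⟩ }
  have hdiv : ∀ (y z : K) (k : ℕ), y ∈ B → z ∈ B → y ^ k = p * z → y / p ∈ B := by
    rintro y z k ⟨m, hm, hy⟩ ⟨m', hm', hz⟩ e
    have e1 : ι y ^ k = p * ι z := by rw [← map_pow, e, map_mul, map_natCast]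
    refine ⟨m * m', hcop hm hm', ?_⟩
    have h2 := Good.div hb hH hp (k := k + 1) (R.mul_mem (natCast_mem R m') hy)
      (R.mul_mem (R.mul_mem (R.pow_mem (R.mul_mem (natCast_mem R m) (natCast_mem R m')) k) hy) hz)
      (by rw [pow_succ, mul_pow, mul_pow, e1]; ring)
    have e2 : ((m * m' : ℕ) : ℝ) * ι (y / p) = m' * (m * ι y) / p := by
      rw [map_div₀, map_natCast]; push_cast; ring
    rw [e2]
    exact h2
  have hB : ∀ j, (a : K) * α j ∈ B := fun j => ⟨1, h1, by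
    rw [Nat.cast_one, one_mul, map_mul, map_natCast]
    exact hG j⟩
  have hmul : ∀ x : K, ∃ m : ℕ, m ≠ 0 ∧ (m : K) * x ∈ B := fun x => by
    have hx : x ∈ Algebra.adjoin ℚ (Set.range α) := hα ▸ Algebra.mem_top
    induction hx using Algebra.adjoin_induction with
    | mem x hx =>
      obtain ⟨j, rfl⟩ := hx
      exact ⟨a, ha, hB j⟩
    | algebraMap r =>
      refine ⟨r.den, r.den_nz, ?_⟩
      have e : (r.den : K) * algebraMap ℚ K r = (r.num : K) := by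
        rw [eq_ratCast, mul_comm]
        exact_mod_cast congrArg (Rat.cast (K := K)) (Rat.mul_den_eq_num r)
      rw [e]
      exact intCast_mem B _
    | add x y _ _ hx hy =>
      obtain ⟨m, hm, hx⟩ := hx
      obtain ⟨m', hm', hy⟩ := hy
      refine ⟨m * m', mul_ne_zero hm hm', ?_⟩
      have e : ((m * m' : ℕ) : K) * (x + y) = m' * (m * x) + m * (m' * y) := by push_cast; ring
      rw [e]
      exact B.add_mem (B.mul_mem (natCast_mem B _) hx) (B.mul_mem (natCast_mem B _) hy)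
    | mul x y _ _ hx hy =>
      obtain ⟨m, hm, hx⟩ := hx
      obtain ⟨m', hm', hy⟩ := hy
      refine ⟨m * m', mul_ne_zero hm hm', ?_⟩
      have e : ((m * m' : ℕ) : K) * (x * y) = (m * x) * (m' * y) := by push_cast; ring
      rw [e]
      exact B.mul_mem hx hy
  have hint : ∀ x : 𝓞 K, (x : K) ∈ B := fun x => by
    obtain ⟨m, hm, h⟩ := hmul x
    refine mem_of_integral hp hdiv ?_ x.isIntegral_coe m hm h
    rintro y m hm ⟨m', hm', h⟩
    refine ⟨m' * m, hcop hm' hm, ?_⟩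
    rw [map_mul, map_natCast, ← mul_assoc] at h
    rwa [Nat.cast_mul]
  obtain ⟨m, hm, h⟩ := inv_mem_of_ramified hp hdiv hint fun v h =>
    (hv v h).imp_right fun ⟨j, hj⟩ => ⟨_, hB j, hj⟩
  refine Good.bound hb hH hp hpb (n := m) (by exact_mod_cast hm) ?_
  rw [map_inv₀, map_natCast] at h
  rw [div_eq_mul_inv, Int.cast_natCast]
  exact h

theorem floor_mul_succ (hb : 2 ≤ b) (x : ℝ) (i : ℕ) :
    ⌊x * (b : ℝ) ^ (i + 1)⌋ = b * ⌊x * (b : ℝ) ^ i⌋ + ⌊x * (b : ℝ) ^ (i + 1)⌋ % (b : ℤ) := by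
  have hb0 : (b : ℝ) ≠ 0 := by exact_mod_cast (by omega : b ≠ 0)
  have h : ⌊x * (b : ℝ) ^ i⌋ = ⌊x * (b : ℝ) ^ (i + 1)⌋ / (b : ℤ) := by
    rw [← Int.floor_div_natCast, pow_succ, ← mul_assoc, mul_div_cancel_right₀ _ hb0]
  rw [h, Int.mul_ediv_add_emod]

/-- Few changes of period `q` give a sparse expansion of `(b ^ q - 1) x`. -/
theorem exists_repW_changes (hb : 2 ≤ b) (x : ℝ) (q N : ℕ) (T : Finset ℕ)
    (hT : ∀ i ∈ Icc 1 N, i ∉ T →
      ⌊x * (b : ℝ) ^ (i + q)⌋ % (b : ℤ) = ⌊x * (b : ℝ) ^ i⌋ % (b : ℤ)) :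
    ∃ s, RepW b s (((b : ℝ) ^ q - 1) * x) N
      (|((⌊x * (b : ℝ) ^ q⌋ - ⌊x⌋ : ℤ) : ℝ)| + b * T.card + 1) := by
  have hb0 : (0 : ℤ) < b := by exact_mod_cast (by omega : 0 < b)
  have key : ∀ i, (⌊x * (b : ℝ) ^ (i + 1 + q)⌋ - ⌊x * (b : ℝ) ^ (i + 1)⌋) -
      b * (⌊x * (b : ℝ) ^ (i + q)⌋ - ⌊x * (b : ℝ) ^ i⌋) =
      ⌊x * (b : ℝ) ^ (i + 1 + q)⌋ % (b : ℤ) - ⌊x * (b : ℝ) ^ (i + 1)⌋ % (b : ℤ) := fun i => by
    have h1 := floor_mul_succ hb x i
    have h2 := floor_mul_succ hb x (i + q)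
    rw [add_right_comm] at h2
    linear_combination h2 - h1
  obtain ⟨s, hs⟩ := exists_repW_of_seq (x := ((b : ℝ) ^ q - 1) * x) hb
    (fun i => ⌊x * (b : ℝ) ^ (i + q)⌋ - ⌊x * (b : ℝ) ^ i⌋) N (B := b) (T.image (· - 1))
    (fun i => by
      have h1 := Int.emod_nonneg ⌊x * (b : ℝ) ^ (i + 1 + q)⌋ hb0.ne'
      have h2 := Int.emod_nonneg ⌊x * (b : ℝ) ^ (i + 1)⌋ hb0.ne'
      have h3 := Int.emod_lt_of_pos ⌊x * (b : ℝ) ^ (i + 1 + q)⌋ hb0
      have h4 := Int.emod_lt_of_pos ⌊x * (b : ℝ) ^ (i + 1)⌋ hb0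
      have h5 : |(⌊x * (b : ℝ) ^ (i + 1 + q)⌋ - ⌊x * (b : ℝ) ^ (i + 1)⌋) -
          b * (⌊x * (b : ℝ) ^ (i + q)⌋ - ⌊x * (b : ℝ) ^ i⌋)| ≤ (b : ℤ) := by
        rw [key, abs_le]
        omega
      exact_mod_cast h5)
    (fun i hi h => by
      have h1 := hT (i + 1) (mem_Icc.2 ⟨by omega, hi⟩) fun h2 => h (mem_image.2 ⟨i + 1, h2, rfl⟩)
      have h2 := key i
      rw [h1, sub_self] at h2
      exact sub_eq_zero.1 h2)
    (by
      have h1 := Int.floor_le (x * (b : ℝ) ^ (N + q))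
      have h2 := Int.lt_floor_add_one (x * (b : ℝ) ^ (N + q))
      have h3 := Int.floor_le (x * (b : ℝ) ^ N)
      have h4 := Int.lt_floor_add_one (x * (b : ℝ) ^ N)
      have e : (b : ℝ) ^ N * (((b : ℝ) ^ q - 1) * x) = x * (b : ℝ) ^ (N + q) - x * (b : ℝ) ^ N := by
        ring
      rw [e, abs_le]
      push_cast
      constructor <;> linarith)
  refine ⟨s, hs.mono hb le_rfl ?_⟩
  have h1 : ((T.image (· - 1)).card : ℝ) ≤ T.card := by exact_mod_cast card_image_le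
  simp only [zero_add, pow_zero, mul_one]
  have := mul_le_mul_of_nonneg_left h1 (Nat.cast_nonneg (α := ℝ) b)
  linarith

theorem good_of_changes (hb : 2 ≤ b) (x : ℝ) (q : ℕ) (T : ℕ → Finset ℕ)
    (hT : ∀ N, ∀ i ∈ Icc 1 N, i ∉ T N →
      ⌊x * (b : ℝ) ^ (i + q)⌋ % (b : ℤ) = ⌊x * (b : ℝ) ^ i⌋ % (b : ℤ)) :
    Good b (fun N => (T N).card + 2) (((b : ℝ) ^ q - 1) * x) := by
  have hH : ∀ N, 2 ≤ (fun N => (T N).card + 2) N := fun N => Nat.le_add_left _ _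
  refine Good.intro hb one_pos (PB.add hH (PB.add hH
    (PB.const hH |((⌊x * (b : ℝ) ^ q⌋ - ⌊x⌋ : ℤ) : ℝ)|)
    ((PB.const hH b).mul (PB.self_pow 1))) (PB.const hH 1)) fun N => ?_
  obtain ⟨s, hs⟩ := exists_repW_changes hb x q N (T N) (hT N)
  refine ⟨s, hs.mono hb (Nat.div_le_self _ _) ?_⟩
  have h1 : (b : ℝ) * (T N).card ≤ b * (((T N).card + 2 : ℕ) : ℝ) ^ 1 :=
    mul_le_mul_of_nonneg_left (by push_cast; linarith) (Nat.cast_nonneg _)
  exact add_le_add_left (add_le_add_right h1 _) _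

theorem rpow_le_of_bound {C : ℕ → ℕ} {D A : ℕ} (hD : 0 < D) (h : ∀ N, N / D ≤ (C N + 2) ^ A) :
    ∃ c : ℝ, 0 < c ∧ ∀ᶠ N : ℕ in Filter.atTop, (N : ℝ) ^ c ≤ C N := by
  refine ⟨((2 * A + D + 1 : ℕ) : ℝ)⁻¹, by positivity, ?_⟩
  filter_upwards [Filter.eventually_ge_atTop (D * (3 ^ A + 1))] with N hN
  have h1 : 2 ≤ C N := by
    by_contra h2
    have h3 : (C N + 2) ^ A ≤ 3 ^ A := Nat.pow_le_pow_left (by omega) A
    have h4 : 3 ^ A + 1 ≤ N / D := (Nat.le_div_iff_mul_le hD).2 (by rwa [mul_comm])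
    have := h N
    omega
  have h2 : N ≤ C N ^ (2 * A + D + 1) := by
    have h3 : (C N + 2) ^ A ≤ C N ^ (2 * A) := by
      rw [pow_mul]
      exact Nat.pow_le_pow_left (by nlinarith) A
    have h4 : D ≤ C N ^ D := (Nat.lt_pow_self h1).le
    have h5 : N < D * (N / D + 1) := Nat.lt_mul_div_succ N hD
    have h6 : 0 < C N ^ (2 * A) := pow_pos (by omega) _
    have h7 : N / D + 1 ≤ C N ^ (2 * A) * C N := by nlinarith [h N]
    calc N ≤ D * (N / D + 1) := h5.le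
      _ ≤ C N ^ D * (C N ^ (2 * A) * C N) := Nat.mul_le_mul h4 h7
      _ = C N ^ (2 * A + D + 1) := by ring
  calc (N : ℝ) ^ ((2 * A + D + 1 : ℕ) : ℝ)⁻¹
      ≤ ((C N : ℝ) ^ (2 * A + D + 1)) ^ ((2 * A + D + 1 : ℕ) : ℝ)⁻¹ :=
        Real.rpow_le_rpow (Nat.cast_nonneg _) (by exact_mod_cast h2) (by positivity)
    _ = C N := Real.pow_rpow_inv_natCast (Nat.cast_nonneg _) (by omega)

end Pool.Agent.P.MP_c8ecb2_nt.H11
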