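import Mathlib
import Pool.Agent.P.MP_c8ecb2_nt.Mid

set_option autoImplicit false

namespace Pool.Agent.P.MP_c8ecb2_nt.H11.JointDigitsOld

open Pool.Agent.P.MP_c8ecb2_nt in
/-- A digit matrix whose first column has entries in `{0, b - 1}` is missed at least
`c N ^ (1 / (r + 1))` times among the first `N` positions. -/
theorem result :
    ∀ (b : ℕ), 2 ≤ b → ∀ (n : ℕ) (α : Fin n → ℝ), 1 ≤ n → (∀ j, IsAlgebraic ℚ (α j)) →
      LinearIndependent ℚ (Matrix.vecCons (1 : ℝ) α) →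
      ∀ r : ℕ,
        (Submodule.span ℚ (insert 1 (Set.range α)) ^ (r + 1) ≤
            Submodule.span ℚ (insert 1 (Set.range α)) ^ r ∨
          Module.finrank ℚ (IntermediateField.adjoin ℚ (Set.range α)) ≤ n + r) →
      ∀ (m : ℕ) (D : Fin n → Fin (m + 1) → Fin b),
        (∀ j, (D j 0 : ℕ) = 0 ∨ (D j 0 : ℕ) = b - 1) →
        ∃ c : ℝ, 0 < c ∧ ∀ᶠ N : ℕ in Filter.atTop,
          ((Finset.filter
              (fun i : ℕ => ∀ j : Fin n, ∀ t : Fin (m + 1),
                Int.floor (α j * (b : ℝ) ^ (i + (t : ℕ))) % (b : ℤ) = (((D j t : ℕ)) : ℤ))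
              (Finset.Icc 1 N)).card : ℝ) ≤ (N : ℝ) - c * (N : ℝ) ^ (1 / ((r : ℝ) + 1)) := by
  intro b hb n α hn halg hli r hr m D hD
  exact final_form α D (columns hb α hn halg hli r
    (hr.elim id (pow_stable α halg hli r)) (fun j => D j 0) hD)

end Pool.Agent.P.MP_c8ecb2_nt.H11.JointDigitsOld
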